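import Mathlib
import Pool.Agent.H34.Sim

namespace Pool.Agent.Results.MP_bd25ec_co.Bound
open Pool.Agent.H34.TreeAlphaDefs Pool.Agent.H34.SimDefs

/-- A `K_{1,d}`-free graph of sim-width at most `k` has tree-independence number at most
`14 k (d - 1) + 2`. -/
theorem result (d k : ℕ) (hd : 2 ≤ d) (V : Type) [Finite V] (G : SimpleGraph V)
    (hG : ¬ (completeBipartiteGraph (Fin 1) (Fin d)).IsIndContained G) (hk : SimWidthLE G k) :
    treeAlpha G ≤ 14 * k * (d - 1) + 2 :=
  Pool.Agent.H34.Sim.main hd hG hk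

end Pool.Agent.Results.MP_bd25ec_co.Bound
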